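import Pool.Agent.Helper60.PlzA.Goals

/-!
# Project PLA, packet GLUE: gluing two planar sets along at most one vertex
-/

set_option autoImplicit false

namespace Pool.Agent.Helper3.PlzA

open Finset Pool.Agent.Helper93.Plz Pool.Agent.Helper60.PlzA

open scoped Classical

/-- A branch set which avoids the common vertices lies on one side. -/
theorem side {V : Type} {G : SimpleGraph V} {S₁ S₂ A : Set V}
    (hyp : ∀ x ∈ S₁, ∀ y ∈ S₂, G.Adj x y → x ∈ S₂ ∨ y ∈ S₁) (hA : A ⊆ S₁ ∪ S₂) (hc : Cn G A)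
    (hav : ∀ x ∈ A, x ∈ S₁ → x ∈ S₂ → False) : A ⊆ S₁ ∨ A ⊆ S₂ := by
  by_cases h0 : ∃ x ∈ A, x ∈ S₁
  · left
    obtain ⟨x0, hx0, hx1⟩ := h0
    by_contra hcon
    obtain ⟨x, hx, y, hy, hyT, hxy⟩ := hc.2 (A ∩ S₁) Set.inter_subset_left ⟨x0, hx0, hx1⟩
      (fun h => hcon (by rw [← h]; exact Set.inter_subset_right))
    have hy1 : y ∉ S₁ := fun h => hyT ⟨hy, h⟩
    have hy2 : y ∈ S₂ := (hA hy).resolve_left hy1
    rcases hyp x hx.2 y hy2 hxy with h | h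
    · exact hav x hx.1 hx.2 h
    · exact hy1 h
  · right
    intro x hx
    exact (hA hx).resolve_left fun h => h0 ⟨x, hx, h⟩

/-- Adjacent branch sets which avoid the common vertices are on the same side. -/
theorem side_adj {V : Type} {G : SimpleGraph V} {S₁ S₂ A B : Set V}
    (hyp : ∀ x ∈ S₁, ∀ y ∈ S₂, G.Adj x y → x ∈ S₂ ∨ y ∈ S₁) (hB : B ⊆ S₁ ∪ S₂) (hc : Cn G B)
    (havA : ∀ x ∈ A, x ∈ S₁ → x ∈ S₂ → False) (havB : ∀ x ∈ B, x ∈ S₁ → x ∈ S₂ → False)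
    (hAB : ∃ x ∈ A, ∃ y ∈ B, G.Adj x y) (h1 : A ⊆ S₁) : B ⊆ S₁ := by
  rcases side hyp hB hc havB with h | h
  · exact h
  · exfalso
    obtain ⟨x, hx, y, hy, hxy⟩ := hAB
    rcases hyp x (h1 hx) y (h hy) hxy with h' | h'
    · exact havA x hx (h1 hx) h'
    · exact havB y hy h' (h hy)

/-- Restriction of the branch set of the common vertex. -/
theorem restr {W V : Type} {K : SimpleGraph W} {G : SimpleGraph V} {S₁ S₂ : Set V}
    (hsub : (S₁ ∩ S₂).Subsingleton)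
    (hyp : ∀ x ∈ S₁, ∀ y ∈ S₂, G.Adj x y → x ∈ S₂ ∨ y ∈ S₁) (f : W → Set V)
    (h1 : ∀ w, f w ⊆ S₁ ∪ S₂) (h2 : ∀ w, Cn G (f w))
    (h3 : ∀ w w', w ≠ w' → Disjoint (f w) (f w'))
    (h4 : ∀ w w', K.Adj w w' → ∃ x ∈ f w, ∃ y ∈ f w', G.Adj x y) (w₀ : W) (a : V)
    (ha0 : a ∈ f w₀) (ha1 : a ∈ S₁) (ha2 : a ∈ S₂) (hall : ∀ w, w ≠ w₀ → f w ⊆ S₁) :
    MinorIn K G S₁ := by
  have huniq : ∀ x, x ∈ S₁ → x ∈ S₂ → x = a := fun x hx1 hx2 =>
    hsub ⟨hx1, hx2⟩ ⟨ha1, ha2⟩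
  have heq : ∀ w, w ≠ w₀ → f w ∩ S₁ = f w := fun w hw => Set.inter_eq_left.mpr (hall w hw)
  -- the vertices of the other branch sets are not in `S₂`
  have hoth : ∀ w, w ≠ w₀ → ∀ y ∈ f w, y ∉ S₂ := by
    intro w hw y hy hy2
    have hya := huniq y (hall w hw hy) hy2
    rw [hya] at hy
    exact Set.disjoint_left.mp (h3 w w₀ hw) hy ha0
  refine ⟨fun w => f w ∩ S₁, fun w => Set.inter_subset_right, ?_, ?_, ?_⟩
  · intro w
    by_cases hw : w = w₀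
    · subst hw
      refine ⟨⟨a, ha0, ha1⟩, ?_⟩
      intro T hT hTn hTS
      have hTf : T ⊆ f w := fun x hx => (hT hx).1
      obtain ⟨z, hz, hzT⟩ : ∃ z ∈ f w ∩ S₁, z ∉ T := by
        by_contra hcon
        push Not at hcon
        exact hTS (Set.Subset.antisymm hT hcon)
      by_cases haT : a ∈ T
      · obtain ⟨x, hx, y, hy, hyT, hxy⟩ := (h2 w).2 (T ∪ (f w \ S₁))
          (Set.union_subset hTf Set.sdiff_subset) ⟨a, Or.inl haT⟩ (by
            intro h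
            have hz' : z ∈ T ∪ (f w \ S₁) := by rw [h]; exact hz.1
            rcases hz' with h' | h'
            · exact hzT h'
            · exact h'.2 hz.2)
        have hy1 : y ∈ S₁ := by
          by_contra h
          exact hyT (Or.inr ⟨hy, h⟩)
        have hyT' : y ∉ T := fun h => hyT (Or.inl h)
        have hya : y ≠ a := fun h => hyT' (by rw [h]; exact haT)
        have hy2 : y ∉ S₂ := fun h => hya (huniq y hy1 h)
        rcases hx with hx | hx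
        · exact ⟨x, hx, y, ⟨hy, hy1⟩, hyT', hxy⟩
        · exfalso
          have hx2 : x ∈ S₂ := (h1 w hx.1).resolve_left hx.2
          rcases hyp y hy1 x hx2 hxy.symm with h | h
          · exact hy2 h
          · exact hx.2 h
      · obtain ⟨x, hx, y, hy, hyT, hxy⟩ := (h2 w).2 T hTf hTn
          (fun h => haT (by rw [h]; exact ha0))
        have hx1 : x ∈ S₁ := (hT hx).2
        have hx2 : x ∉ S₂ := fun h => haT (by rw [← huniq x hx1 h]; exact hx)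
        have hy1 : y ∈ S₁ := by
          rcases h1 w hy with h | h
          · exact h
          · exact (hyp x hx1 y h hxy).resolve_left hx2
        exact ⟨x, hx, y, ⟨hy, hy1⟩, hyT, hxy⟩
    · show Cn G (f w ∩ S₁)
      rw [heq w hw]
      exact h2 w
  · intro w w' hw
    exact (h3 w w' hw).mono Set.inter_subset_left Set.inter_subset_left
  · intro w w' hw
    obtain ⟨x, hx, y, hy, hxy⟩ := h4 w w' hw
    -- an edge from the special branch set to another one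
    have key : ∀ x y, x ∈ f w₀ → y ∈ S₁ → y ∉ S₂ → G.Adj y x → x ∈ S₁ := by
      intro x y hx hy hy2 hyx
      rcases h1 w₀ hx with h | h
      · exact h
      · exact (hyp y hy x h hyx).resolve_left hy2
    by_cases hww : w = w₀
    · have hw' : w' ≠ w₀ := fun h => hw.ne (by rw [hww, h])
      rw [hww] at hx
      refine ⟨x, ⟨by rw [hww]; exact hx, ?_⟩, y, ⟨hy, hall w' hw' hy⟩, hxy⟩
      exact key x y hx (hall w' hw' hy) (hoth w' hw' y hy) hxy.symm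
    · by_cases hww' : w' = w₀
      · rw [hww'] at hy
        refine ⟨x, ⟨hx, hall w hww hx⟩, y, ⟨by rw [hww']; exact hy, ?_⟩, hxy⟩
        exact key y x hy (hall w hww hx) (hoth w hww x hx) hxy
      · exact ⟨x, ⟨hx, hall w hww hx⟩, y, ⟨hy, hall w' hww' hy⟩, hxy⟩

/-- Minors and gluing along at most one vertex. -/
theorem glue_minor {W V : Type} {K : SimpleGraph W} {G : SimpleGraph V} {S₁ S₂ : Set V}
    (hK : ∀ P : W → Prop, (∀ w w', K.Adj w w' → P w → P w') → (∃ w, P w) → ∀ w, P w)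
    (hK' : ∀ w₀, ∀ P : W → Prop, (∀ w w', w ≠ w₀ → w' ≠ w₀ → K.Adj w w' → P w → P w') →
      (∃ w, w ≠ w₀ ∧ P w) → ∀ w, w ≠ w₀ → P w)
    (hsub : (S₁ ∩ S₂).Subsingleton)
    (hyp : ∀ x ∈ S₁, ∀ y ∈ S₂, G.Adj x y → x ∈ S₂ ∨ y ∈ S₁)
    (hm : MinorIn K G (S₁ ∪ S₂)) : MinorIn K G S₁ ∨ MinorIn K G S₂ := by
  obtain ⟨f, h1, h2, h3, h4⟩ := hm
  by_cases hex : ∃ w₀, ∃ a ∈ f w₀, a ∈ S₁ ∧ a ∈ S₂
  · obtain ⟨w₀, a, ha0, ha1, ha2⟩ := hex
    have hav : ∀ w, w ≠ w₀ → ∀ x ∈ f w, x ∈ S₁ → x ∈ S₂ → False := by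
      intro w hw x hx hx1 hx2
      have hxa : x = a := hsub ⟨hx1, hx2⟩ ⟨ha1, ha2⟩
      rw [hxa] at hx
      exact Set.disjoint_left.mp (h3 w w₀ hw) hx ha0
    by_cases h0 : ∃ w, w ≠ w₀ ∧ f w ⊆ S₁
    · left
      have hall := hK' w₀ (fun w => f w ⊆ S₁) (fun w w' hw hw' hadj hwS =>
        side_adj hyp (h1 w') (h2 w') (hav w hw) (hav w' hw') (h4 w w' hadj) hwS) h0
      exact restr hsub hyp f h1 h2 h3 h4 w₀ a ha0 ha1 ha2 hall
    · right
      have hall : ∀ w, w ≠ w₀ → f w ⊆ S₂ := by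
        intro w hw
        rcases side hyp (h1 w) (h2 w) (hav w hw) with h | h
        · exact absurd ⟨w, hw, h⟩ h0
        · exact h
      refine restr (by rw [Set.inter_comm]; exact hsub)
        (fun x hx y hy hxy => (hyp y hy x hx hxy.symm).symm) f
        (fun w => by rw [Set.union_comm]; exact h1 w) h2 h3 h4 w₀ a ha0 ha2 ha1 hall
  · push Not at hex
    have hav : ∀ w, ∀ x ∈ f w, x ∈ S₁ → x ∈ S₂ → False := fun w x hx hx1 hx2 => hex w x hx hx1 hx2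
    by_cases h0 : ∃ w, f w ⊆ S₁
    · left
      have hall := hK (fun w => f w ⊆ S₁) (fun w w' hadj hwS =>
        side_adj hyp (h1 w') (h2 w') (hav w) (hav w') (h4 w w' hadj) hwS) h0
      exact ⟨f, hall, h2, h3, h4⟩
    · right
      refine ⟨f, ?_, h2, h3, h4⟩
      intro w
      rcases side hyp (h1 w) (h2 w) (hav w) with h | h
      · exact absurd ⟨w, h⟩ h0
      · exact h

theorem conn5 : ∀ P : Fin 5 → Prop, (∀ w w', (⊤ : SimpleGraph (Fin 5)).Adj w w' → P w → P w') →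
    (∃ w, P w) → ∀ w, P w := by
  rintro P hP ⟨w, hw⟩ w'
  by_cases hww : w = w'
  · rw [← hww]; exact hw
  · exact hP w w' hww hw

theorem conn5' : ∀ w₀, ∀ P : Fin 5 → Prop,
    (∀ w w', w ≠ w₀ → w' ≠ w₀ → (⊤ : SimpleGraph (Fin 5)).Adj w w' → P w → P w') →
      (∃ w, w ≠ w₀ ∧ P w) → ∀ w, w ≠ w₀ → P w := by
  rintro w₀ P hP ⟨w, hw0, hw⟩ w' hw'
  by_cases hww : w = w'
  · rw [← hww]; exact hw
  · exact hP w w' hw0 hw' hww hw

theorem conn33 : ∀ P : Fin 3 ⊕ Fin 3 → Prop,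
    (∀ w w', (completeBipartiteGraph (Fin 3) (Fin 3)).Adj w w' → P w → P w') →
      (∃ w, P w) → ∀ w, P w := by
  rintro P hP ⟨w, hw⟩ w'
  have hl : ∀ i j, P (Sum.inl i) → P (Sum.inr j) := fun i j h => hP _ _ (by simp) h
  have hr : ∀ i j, P (Sum.inr i) → P (Sum.inl j) := fun i j h => hP _ _ (by simp) h
  rcases w with i | i <;> rcases w' with j | j
  · exact hr 0 j (hl i 0 hw)
  · exact hl i j hw
  · exact hr i j hw
  · exact hl 0 j (hr i 0 hw)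

theorem avoid_inl : ∀ w₀ : Fin 3 ⊕ Fin 3, ∃ k : Fin 3, (Sum.inl k : Fin 3 ⊕ Fin 3) ≠ w₀ := by
  decide

theorem avoid_inr : ∀ w₀ : Fin 3 ⊕ Fin 3, ∃ k : Fin 3, (Sum.inr k : Fin 3 ⊕ Fin 3) ≠ w₀ := by
  decide

theorem conn33' : ∀ w₀, ∀ P : Fin 3 ⊕ Fin 3 → Prop,
    (∀ w w', w ≠ w₀ → w' ≠ w₀ → (completeBipartiteGraph (Fin 3) (Fin 3)).Adj w w' → P w → P w') →
      (∃ w, w ≠ w₀ ∧ P w) → ∀ w, w ≠ w₀ → P w := by
  rintro w₀ P hP ⟨w, hw0, hw⟩ w' hw'
  have hl : ∀ i j, Sum.inl i ≠ w₀ → Sum.inr j ≠ w₀ → P (Sum.inl i) → P (Sum.inr j) :=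
    fun i j hi hj h => hP _ _ hi hj (by simp) h
  have hr : ∀ i j, Sum.inr i ≠ w₀ → Sum.inl j ≠ w₀ → P (Sum.inr i) → P (Sum.inl j) :=
    fun i j hi hj h => hP _ _ hi hj (by simp) h
  obtain ⟨k, hk⟩ := avoid_inl w₀
  obtain ⟨l, hl'⟩ := avoid_inr w₀
  rcases w with i | i <;> rcases w' with j | j
  · exact hr l j hl' hw' (hl i l hw0 hl' hw)
  · exact hl i j hw0 hw' hw
  · exact hr i j hw0 hw' hw
  · exact hl k j hk hw' (hr i k hw0 hk hw)

theorem glue : S_GLUE := by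
  intro V G S₁ S₂ hsub hyp hp1 hp2
  refine ⟨fun hm => ?_, fun hm => ?_⟩
  · rcases glue_minor conn5 conn5' hsub hyp hm with h | h
    · exact hp1.1 h
    · exact hp2.1 h
  · rcases glue_minor conn33 conn33' hsub hyp hm with h | h
    · exact hp1.2 h
    · exact hp2.2 h

end Pool.Agent.Helper3.PlzA
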